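import Mathlib

set_option autoImplicit false

namespace Pool.Agent.Y552.Gp

/-- A family of languages over finite alphabets: `F X L` says that the language `L` over the finite
alphabet `X` belongs to the family. -/
abbrev Family := ∀ (X : Type) [Finite X], Language X → Prop

/-- An a-gsm from `X` to `Y`: a deterministic finite-state machine which outputs a word over `Y`
(possibly the empty one) each time it reads a letter of `X`, with a set of accepting states. -/
structure AGsm (X Y : Type) where
  /-- the states -/
  State : Type
  /-- there are finitely many states -/
  finState : Finite State
  /-- the initial state -/
  init : State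
  /-- the next state -/
  next : State → X → State
  /-- the word which is output -/
  out : State → X → List Y
  /-- the accepting states -/
  accept : Set State

namespace AGsm

variable {X Y : Type}

/-- The state reached from the state `p` by reading the word. -/
def run (M : AGsm X Y) (p : M.State) : List X → M.State
  | [] => p
  | x :: u => M.run (M.next p x) u

/-- The output produced from the state `p` by reading the word. -/
def output (M : AGsm X Y) (p : M.State) : List X → List Y
  | [] => []
  | x :: u => M.out p x ++ M.output (M.next p x) u

/-- The inverse image of the language `L`: the words `u` for which the run on `u` ends in an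
accepting state and the output on `u` is in `L`. -/
def inv (M : AGsm X Y) (L : Language Y) : Language X :=
  {u | M.run M.init u ∈ M.accept ∧ M.output M.init u ∈ L}

end AGsm

/-- The family `F` is closed under inverse a-gsm mappings. -/
def ClosedInvGsm (F : Family) : Prop :=
  ∀ (X Y : Type) [Finite X] [Finite Y] (M : AGsm X Y) (L : Language Y), F Y L → F X (M.inv L)

/-- `G(L)`: the smallest family which contains `L` and is closed under inverse a-gsm mappings. -/
def G {Y : Type} [Finite Y] (L : Language Y) : Family :=
  fun X _ N => ∀ F : Family, ClosedInvGsm F → F Y L → F X N

/-- The family `F` is G-principal: `F = G(L)` for some `L` in `F`. -/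
def GPrincipal (F : Family) : Prop :=
  ∃ (Y : Type) (_ : Finite Y) (L : Language Y), F Y L ∧
    ∀ (X : Type) [Finite X] (N : Language X), F X N ↔ G L X N

/-- `Lin`, the family of the linear languages: the languages generated by context-free grammars in
which every right-hand side contains at most one nonterminal. -/
def Lin : Family := fun X _ L =>
  ∃ g : ContextFreeGrammar X, g.language = L ∧ ∀ r ∈ g.rules,
    (∃ u : List X, r.output = u.map Symbol.terminal) ∨
    ∃ (u v : List X) (A : g.NT),
      r.output = u.map Symbol.terminal ++ Symbol.nonterminal A :: v.map Symbol.terminal

end Pool.Agent.Y552.Gp
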