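import Pool.Agent.Y552.Gp.Defs
import Pool.Agent.Helper178.GramLfp

set_option autoImplicit false

/-!
The test languages.
-/

namespace Pool.Agent.Y552.Gp

open Symbol Pool.Agent.Helper178.Gram

/-- The alphabet. -/
inductive Xm (m : ℕ)
  | x (i : Fin m)
  | a
  | b
  | c (g : Fin m)
  deriving DecidableEq, Fintype

variable {m : ℕ}

/-- The test language. -/
def Mm (m : ℕ) : Language (Xm m) :=
  {w | ∃ (g : Fin m) (u1 u2 : List (Fin m)) (l : ℕ), g ∉ u2 ∧
    w = u1.map .x ++ (u2.map .x ++ (List.replicate l .a ++ (List.replicate l .b ++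
      List.replicate (u1.length + 1) (.c g))))}

/-- Nonterminals. -/
inductive NM (m : ℕ)
  | S
  | T (g : Fin m)
  | A (g : Fin m)
  | B
  deriving DecidableEq

/-- The rules. -/
def rlM (m : ℕ) : List (ContextFreeRule (Xm m) (NM m)) :=
  [⟨.B, []⟩, ⟨.B, [terminal .a, nonterminal .B, terminal .b]⟩] ++
  (List.finRange m).flatMap (fun g => [⟨.S, [nonterminal (.T g)]⟩,
    ⟨.T g, [nonterminal (.A g), terminal (.c g)]⟩, ⟨.A g, [nonterminal .B]⟩] ++
    (List.finRange m).map (fun i => ⟨.T g, [terminal (.x i), nonterminal (.T g),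
      terminal (.c g)]⟩) ++
    ((List.finRange m).filter (· ≠ g)).map (fun i => ⟨.A g, [terminal (.x i),
      nonterminal (.A g)]⟩))

theorem mem_rlM (r : ContextFreeRule (Xm m) (NM m)) : r ∈ rlM m ↔
    r = ⟨.B, []⟩ ∨ r = ⟨.B, [terminal .a, nonterminal .B, terminal .b]⟩ ∨
    ∃ g : Fin m, r = ⟨.S, [nonterminal (.T g)]⟩ ∨
      r = ⟨.T g, [nonterminal (.A g), terminal (.c g)]⟩ ∨ r = ⟨.A g, [nonterminal .B]⟩ ∨
      (∃ i, r = ⟨.T g, [terminal (.x i), nonterminal (.T g), terminal (.c g)]⟩) ∨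
      ∃ i, i ≠ g ∧ r = ⟨.A g, [terminal (.x i), nonterminal (.A g)]⟩ := by
  simp only [rlM, List.mem_append, List.mem_cons, List.not_mem_nil, or_false, List.mem_flatMap,
    List.mem_finRange, true_and, List.mem_map, List.mem_filter, decide_eq_true_eq]
  constructor
  · rintro ((h | h) | ⟨g, ((h | h | h) | ⟨i, h⟩) | ⟨i, hi, h⟩⟩)
    · exact Or.inl h
    · exact Or.inr (Or.inl h)
    · exact Or.inr (Or.inr ⟨g, Or.inl h⟩)
    · exact Or.inr (Or.inr ⟨g, Or.inr (Or.inl h)⟩)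
    · exact Or.inr (Or.inr ⟨g, Or.inr (Or.inr (Or.inl h))⟩)
    · exact Or.inr (Or.inr ⟨g, Or.inr (Or.inr (Or.inr (Or.inl ⟨i, h.symm⟩)))⟩)
    · exact Or.inr (Or.inr ⟨g, Or.inr (Or.inr (Or.inr (Or.inr ⟨i, hi, h.symm⟩)))⟩)
  · rintro (h | h | ⟨g, h | h | h | ⟨i, h⟩ | ⟨i, hi, h⟩⟩)
    · exact Or.inl (Or.inl h)
    · exact Or.inl (Or.inr h)
    · exact Or.inr ⟨g, Or.inl (Or.inl (Or.inl h))⟩
    · exact Or.inr ⟨g, Or.inl (Or.inl (Or.inr (Or.inl h)))⟩
    · exact Or.inr ⟨g, Or.inl (Or.inl (Or.inr (Or.inr h)))⟩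
    · exact Or.inr ⟨g, Or.inl (Or.inr ⟨i, h.symm⟩)⟩
    · exact Or.inr ⟨g, Or.inr ⟨i, hi, h.symm⟩⟩

/-- The grammar. -/
def gM (m : ℕ) : ContextFreeGrammar (Xm m) where
  NT := NM m
  initial := NM.S
  rules := (rlM m).toFinset

theorem mem_gM (r : ContextFreeRule (Xm m) (NM m)) : r ∈ (gM m).rules ↔ r ∈ rlM m := by
  show r ∈ (rlM m).toFinset ↔ _
  exact List.mem_toFinset

/-- The middle part. -/
def ab (l : ℕ) : List (Xm m) := List.replicate l .a ++ List.replicate l .b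

theorem ab_succ (l : ℕ) : (ab (l + 1) : List (Xm m)) = .a :: (ab l ++ [.b]) := by
  simp [ab, List.replicate_succ (n := l) (a := (Xm.a : Xm m)),
    List.replicate_succ' (n := l) (a := (Xm.b : Xm m))]

/-- The interpretation. -/
def InM : NM m → List (Xm m) → Prop
  | .S, w => ∃ (g : Fin m) (u1 u2 : List (Fin m)) (l : ℕ), g ∉ u2 ∧
      w = u1.map .x ++ (u2.map .x ++ (ab l ++ List.replicate (u1.length + 1) (.c g)))
  | .T g, w => ∃ (u1 u2 : List (Fin m)) (l : ℕ), g ∉ u2 ∧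
      w = u1.map .x ++ (u2.map .x ++ (ab l ++ List.replicate (u1.length + 1) (.c g)))
  | .A g, w => ∃ (u2 : List (Fin m)) (l : ℕ), g ∉ u2 ∧ w = u2.map .x ++ ab l
  | .B, w => ∃ l : ℕ, w = ab l

theorem InM_S_iff (w : List (Xm m)) : InM .S w ↔ w ∈ Mm m := by
  constructor
  · rintro ⟨g, u1, u2, l, h1, rfl⟩
    exact ⟨g, u1, u2, l, h1, by simp [ab]⟩
  · rintro ⟨g, u1, u2, l, h1, rfl⟩
    exact ⟨g, u1, u2, l, h1, by simp [ab]⟩

theorem InM_closed : ∀ r ∈ rlM m, ∀ w, Yl InM r.output w → InM r.input w := by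
  intro r hr
  rcases (mem_rlM r).1 hr with rfl | rfl | ⟨g, rfl | rfl | rfl | ⟨i, rfl⟩ | ⟨i, hi, rfl⟩⟩
  · rintro _ rfl
    exact ⟨0, rfl⟩
  · rintro _ ⟨_, rfl, _, _, rfl, ⟨l, rfl⟩, _, rfl, rfl⟩
    exact ⟨l + 1, by rw [ab_succ]⟩
  · rintro _ ⟨_, _, rfl, ⟨u1, u2, l, h1, rfl⟩, rfl⟩
    exact ⟨g, u1, u2, l, h1, by simp⟩
  · rintro _ ⟨_, _, rfl, ⟨u2, l, h1, rfl⟩, _, rfl, rfl⟩
    exact ⟨[], u2, l, h1, by simp⟩
  · rintro _ ⟨_, _, rfl, ⟨l, rfl⟩, rfl⟩
    exact ⟨[], l, by simp, by simp⟩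
  · rintro _ ⟨_, rfl, _, _, rfl, ⟨u1, u2, l, h1, rfl⟩, _, rfl, rfl⟩
    refine ⟨i :: u1, u2, l, h1, ?_⟩
    rw [List.length_cons, List.replicate_succ' (n := u1.length + 1)]
    simp
  · rintro _ ⟨_, rfl, _, _, rfl, ⟨u2, l, h1, rfl⟩, rfl⟩
    exact ⟨i :: u2, l, by simp [h1, hi.symm], by simp⟩

theorem drM {A : NM m} {s : List (Symbol (Xm m) (NM m))}
    (h : (⟨A, s⟩ : ContextFreeRule (Xm m) (NM m)) ∈ rlM m) {w : List (Xm m)}
    (hw : Yl (Der (gM m)) s w) : Der (gM m) A w :=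
  complete (g := gM m) (r := ⟨A, s⟩) ((mem_gM _).mpr h) hw

theorem dr_B (l : ℕ) : Der (gM m) NM.B (ab l) := by
  induction l with
  | zero => exact drM (s := []) ((mem_rlM _).2 (Or.inl rfl)) rfl
  | succ l ih =>
    rw [ab_succ]
    exact drM (s := [terminal .a, nonterminal .B, terminal .b])
      ((mem_rlM _).2 (Or.inr (Or.inl rfl))) ⟨_, rfl, _, _, rfl, ih, [], rfl, rfl⟩

theorem dr_A (g : Fin m) (l : ℕ) (u : List (Fin m)) (hu : g ∉ u) :
    Der (gM m) (NM.A g) (u.map .x ++ ab l) := by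
  induction u with
  | nil =>
    exact drM (s := [nonterminal .B])
      ((mem_rlM _).2 (Or.inr (Or.inr ⟨g, Or.inr (Or.inr (Or.inl rfl))⟩)))
      ⟨ab l, [], by simp, dr_B l, rfl⟩
  | cons i u ih =>
    simp only [List.mem_cons, not_or] at hu
    exact drM (s := [terminal (.x i), nonterminal (.A g)])
      ((mem_rlM _).2 (Or.inr (Or.inr ⟨g, Or.inr (Or.inr (Or.inr (Or.inr
        ⟨i, fun h => hu.1 h.symm, rfl⟩)))⟩)))
      ⟨u.map .x ++ ab l, by simp, _, [], by simp, ih hu.2, rfl⟩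

theorem dr_T (g : Fin m) (l : ℕ) (u1 u2 : List (Fin m)) (hu : g ∉ u2) :
    Der (gM m) (NM.T g) (u1.map .x ++ (u2.map .x ++ (ab l ++
      List.replicate (u1.length + 1) (.c g)))) := by
  induction u1 with
  | nil =>
    exact drM (s := [nonterminal (.A g), terminal (.c g)])
      ((mem_rlM _).2 (Or.inr (Or.inr ⟨g, Or.inr (Or.inl rfl)⟩)))
      ⟨u2.map .x ++ ab l, [.c g], by simp, dr_A g l u2 hu, [], rfl, rfl⟩
  | cons i u1 ih =>
    refine drM (s := [terminal (.x i), nonterminal (.T g), terminal (.c g)])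
      ((mem_rlM _).2 (Or.inr (Or.inr ⟨g, Or.inr (Or.inr (Or.inr (Or.inl ⟨i, rfl⟩)))⟩)))
      ⟨_, rfl, _, [.c g], ?_, ih, [], rfl, rfl⟩
    rw [List.length_cons, List.replicate_succ' (n := u1.length + 1)]
    simp

theorem Mm_lin (m : ℕ) : Lin (Xm m) (Mm m) := by
  refine ⟨gM m, ?_, ?_⟩
  · ext w
    rw [ContextFreeGrammar.mem_language_iff]
    constructor
    · intro h
      have h1 := sound (g := gM m) (I := InM)
        (fun r hr w h => InM_closed r ((mem_gM r).mp hr) w h) h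
      obtain ⟨w1, w2, rfl, h2, h3⟩ := h1
      have h3' : w2 = [] := h3
      subst h3'
      rw [List.append_nil]
      exact (InM_S_iff _).1 h2
    · intro h
      obtain ⟨g, u1, u2, l, h1, rfl⟩ := (InM_S_iff _).2 h
      exact drM (s := [nonterminal (.T g)])
        ((mem_rlM _).2 (Or.inr (Or.inr ⟨g, Or.inl rfl⟩)))
        ⟨_, [], by simp, dr_T g l u1 u2 h1, rfl⟩
  · intro r hr
    rcases (mem_rlM r).1 ((mem_gM r).1 hr) with rfl | rfl | ⟨g, rfl | rfl | rfl | ⟨i, rfl⟩ |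
      ⟨i, hi, rfl⟩⟩
    · exact Or.inl ⟨[], rfl⟩
    · exact Or.inr ⟨[.a], [.b], _, rfl⟩
    · exact Or.inr ⟨[], [], _, rfl⟩
    · exact Or.inr ⟨[], [.c g], _, rfl⟩
    · exact Or.inr ⟨[], [], _, rfl⟩
    · exact Or.inr ⟨[.x i], [.c g], _, rfl⟩
    · exact Or.inr ⟨[.x i], [], _, rfl⟩

/-! ### necessary conditions -/

theorem count_ab {U : List (Xm m)} (hU : ∀ y ∈ U, ∃ i, y = .x i) {k l p : ℕ} {g : Fin m}
    (h : U ++ (List.replicate k .a ++ (List.replicate l .b ++
      List.replicate (p + 1) (.c g))) ∈ Mm m) : k = l := by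
  have hx : ∀ V : List (Xm m), (∀ y ∈ V, ∃ i, y = .x i) → V.count .a = 0 ∧ V.count .b = 0 := by
    intro V hV
    rw [List.count_eq_zero, List.count_eq_zero]
    constructor
    · intro h
      obtain ⟨i, hi⟩ := hV _ h
      simp at hi
    · intro h
      obtain ⟨i, hi⟩ := hV _ h
      simp at hi
  have hm : ∀ u : List (Fin m), ∀ y ∈ u.map (Xm.x : Fin m → Xm m), ∃ i, y = .x i := by
    intro u y hy
    obtain ⟨i, _, rfl⟩ := List.mem_map.1 hy
    exact ⟨i, rfl⟩
  obtain ⟨g', u1, u2, l', _, e⟩ := h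
  have ea := congrArg (List.count (Xm.a : Xm m)) e
  have eb := congrArg (List.count (Xm.b : Xm m)) e
  simp only [List.count_append, List.count_replicate, (hx U hU).1, (hx U hU).2,
    (hx _ (hm u1)).1, (hx _ (hm u1)).2, (hx _ (hm u2)).1, (hx _ (hm u2)).2] at ea eb
  simp at ea eb
  omega

/-- the letter of a position of the first part -/
def px : Xm m → Option (Fin m)
  | .x i => some i
  | _ => none

/-- the letter of a position of the last part -/
def pc : Xm m → Option (Fin m)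
  | .c i => some i
  | _ => none

theorem px_map (u : List (Fin m)) : (u.map (Xm.x : Fin m → Xm m)).filterMap px = u := by
  induction u with
  | nil => rfl
  | cons i u ih => rw [List.map_cons, List.filterMap_cons]; simp [px, ih]

theorem pc_map (u : List (Fin m)) : (u.map (Xm.x : Fin m → Xm m)).filterMap pc = [] := by
  induction u with
  | nil => rfl
  | cons i u ih => rw [List.map_cons, List.filterMap_cons]; simp [pc, ih]

theorem fm_replicate_none {f : Xm m → Option (Fin m)} (n : ℕ) {y : Xm m} (h : f y = none) :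
    (List.replicate n y).filterMap f = [] := by
  induction n with
  | zero => rfl
  | succ n ih => rw [List.replicate_succ, List.filterMap_cons, h, ih]

theorem fm_replicate_some {f : Xm m → Option (Fin m)} (n : ℕ) {y : Xm m} {i : Fin m}
    (h : f y = some i) : (List.replicate n y).filterMap f = List.replicate n i := by
  induction n with
  | zero => rfl
  | succ n ih => rw [List.replicate_succ, List.filterMap_cons, h, ih, List.replicate_succ]

theorem parse {u : List (Fin m)} {k l p : ℕ} {g : Fin m}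
    (h : u.map Xm.x ++ (List.replicate k .a ++ (List.replicate l .b ++
      List.replicate (p + 1) (.c g))) ∈ Mm m) : g ∉ u.drop p := by
  obtain ⟨g', u1, u2, l', hg, e⟩ := h
  have e1 := congrArg (List.filterMap px) e
  have e2 := congrArg (List.filterMap pc) e
  simp only [List.filterMap_append, px_map, pc_map, fm_replicate_none (f := px) _ (y := .a) rfl,
    fm_replicate_none (f := px) _ (y := .b) rfl, fm_replicate_none (f := px) _ (y := .c _) rfl,
    fm_replicate_none (f := pc) _ (y := .a) rfl, fm_replicate_none (f := pc) _ (y := .b) rfl,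
    List.append_nil, List.nil_append] at e1 e2
  rw [fm_replicate_some (f := pc) _ (y := .c g) rfl, fm_replicate_some (f := pc) _ (y := .c g')
    rfl] at e2
  have e3 := congrArg List.length e2
  simp only [List.length_replicate, Nat.add_right_cancel_iff] at e3
  subst e3
  rw [List.replicate_succ, List.replicate_succ, List.cons.injEq] at e2
  rw [e1, List.drop_left', e2.1]
  · exact hg
  · rfl

end Pool.Agent.Y552.Gp
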