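import Pool.Agent.Y552.Gp.Two
import Pool.Agent.Y552.Gp.Lang

set_option autoImplicit false

/-!
The linear languages are not G-principal.
-/

namespace Pool.Agent.Y552.Gp

/-! ### sequential machines -/

namespace AGsm

variable {X Y Z : Type}

theorem run_append (M : AGsm X Y) (u v : List X) : ∀ p, M.run p (u ++ v) = M.run (M.run p u) v := by
  induction u with
  | nil => intro p; rfl
  | cons x u ih => intro p; exact ih _

theorem output_append (M : AGsm X Y) (u v : List X) :
    ∀ p, M.output p (u ++ v) = M.output p u ++ M.output (M.run p u) v := by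
  induction u with
  | nil => intro p; rfl
  | cons x u ih =>
    intro p
    rw [List.cons_append, output, output, ih, run, List.append_assoc]

theorem output_cons (M : AGsm X Y) (x : X) (u : List X) (p : M.State) :
    M.output p (x :: u) = M.out p x ++ M.output (M.next p x) u := rfl

/-- the composition -/
def comp (M : AGsm X Y) (N : AGsm Y Z) : AGsm X Z where
  State := M.State × N.State
  finState := by
    have := M.finState
    have := N.finState
    infer_instance
  init := (M.init, N.init)
  next := fun s x => (M.next s.1 x, N.run s.2 (M.out s.1 x))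
  out := fun s x => N.output s.2 (M.out s.1 x)
  accept := {s | s.1 ∈ M.accept ∧ s.2 ∈ N.accept}

theorem comp_run (M : AGsm X Y) (N : AGsm Y Z) (u : List X) : ∀ s : M.State × N.State,
    (M.comp N).run s u = (M.run s.1 u, N.run s.2 (M.output s.1 u)) := by
  induction u with
  | nil => intro s; rfl
  | cons x u ih =>
    intro s
    have h : (M.comp N).run s (x :: u) =
      (M.comp N).run (M.next s.1 x, N.run s.2 (M.out s.1 x)) u := rfl
    rw [h, ih, output_cons, run_append]
    rfl

theorem comp_output (M : AGsm X Y) (N : AGsm Y Z) (u : List X) : ∀ s : M.State × N.State,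
    (M.comp N).output s u = N.output s.2 (M.output s.1 u) := by
  induction u with
  | nil => intro s; rfl
  | cons x u ih =>
    intro s
    have h : (M.comp N).output s (x :: u) = N.output s.2 (M.out s.1 x) ++
      (M.comp N).output (M.next s.1 x, N.run s.2 (M.out s.1 x)) u := rfl
    rw [h, ih, output_cons, output_append]

theorem comp_inv (M : AGsm X Y) (N : AGsm Y Z) (L : Language Z) :
    (M.comp N).inv L = M.inv (N.inv L) := by
  ext u
  change ((M.comp N).run (M.init, N.init) u ∈ (M.comp N).accept ∧
    (M.comp N).output (M.init, N.init) u ∈ L) ↔ (M.run M.init u ∈ M.accept ∧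
      (N.run N.init (M.output M.init u) ∈ N.accept ∧ N.output N.init (M.output M.init u) ∈ L))
  rw [comp_run, comp_output]
  exact and_assoc

/-- the identity -/
def idM (Y : Type) : AGsm Y Y where
  State := Unit
  finState := inferInstance
  init := ()
  next := fun _ _ => ()
  out := fun _ y => [y]
  accept := Set.univ

theorem idM_output (u : List Y) : (idM Y).output () u = u := by
  induction u with
  | nil => rfl
  | cons x u ih =>
    change [x] ++ (idM Y).output () u = _
    rw [ih]
    rfl

theorem idM_inv (L : Language Y) : (idM Y).inv L = L := by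
  ext u
  change (_ ∧ (idM Y).output () u ∈ L) ↔ _
  rw [idM_output]
  exact ⟨fun h => h.2, fun h => ⟨Set.mem_univ _, h⟩⟩

end AGsm

theorem G_inv {Y : Type} [Finite Y] {L : Language Y} {X : Type} [Finite X] {N : Language X}
    (h : G L X N) : ∃ M : AGsm X Y, N = M.inv L := by
  refine h (fun X _ N => ∃ M : AGsm X Y, N = M.inv L) ?_ ⟨AGsm.idM Y, (AGsm.idM_inv L).symm⟩
  rintro X Y' _ _ M L' ⟨N, rfl⟩
  exact ⟨M.comp N, (AGsm.comp_inv M N L).symm⟩

/-! ### recurrent states -/

section

variable {m : ℕ} {σ : Type} (t : σ → Fin m → σ)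

/-- reading a word -/
def rd : σ → List (Fin m) → σ
  | d, [] => d
  | d, i :: u => rd (t d i) u

theorem rd_append (u v : List (Fin m)) : ∀ d, rd t d (u ++ v) = rd t (rd t d u) v := by
  induction u with
  | nil => intro d; rfl
  | cons i u ih => intro d; exact ih _

/-- reachable with the letters up to `j` -/
def Rch (j : ℕ) (d e : σ) : Prop := ∃ y : List (Fin m), (∀ x ∈ y, (x : ℕ) ≤ j) ∧ rd t d y = e

theorem Rch.refl (j : ℕ) (d : σ) : Rch t j d d := ⟨[], by simp, rfl⟩

variable {t}

theorem Rch.trans {j : ℕ} {d e f : σ} (h : Rch t j d e) (h' : Rch t j e f) : Rch t j d f := by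
  obtain ⟨y, hy, rfl⟩ := h
  obtain ⟨z, hz, rfl⟩ := h'
  refine ⟨y ++ z, ?_, rd_append t y z d⟩
  intro x hx
  rcases List.mem_append.1 hx with hx | hx
  · exact hy x hx
  · exact hz x hx

theorem Rch.mono {j k : ℕ} (hjk : j ≤ k) {d e : σ} (h : Rch t j d e) : Rch t k d e := by
  obtain ⟨y, hy, rfl⟩ := h
  exact ⟨y, fun x hx => (hy x hx).trans hjk, rfl⟩

variable (t) in
/-- recurrent states -/
def Rec (j : ℕ) (d : σ) : Prop := ∀ e, Rch t j d e → Rch t j e d

theorem Rec.mono {j k : ℕ} (hjk : j ≤ k) {d e : σ} (hd : Rec t k d) (h : Rch t j d e) :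
    Rec t k e := by
  intro f hf
  exact (hd f ((h.mono hjk).trans hf)).trans (h.mono hjk)

theorem exists_rec [Finite σ] (j : ℕ) (d : σ) : ∃ e, Rch t j d e ∧ Rec t j e := by
  obtain ⟨e, he, hmin⟩ : ∃ e, Rch t j d e ∧ ∀ f, Rch t j d f →
      {x | Rch t j e x}.ncard ≤ {x | Rch t j f x}.ncard := by
    have hne : ∃ n, ∃ e, Rch t j d e ∧ {x | Rch t j e x}.ncard = n := ⟨_, d, Rch.refl t j d, rfl⟩
    classical
    obtain ⟨e, he, hn⟩ := Nat.find_spec hne
    refine ⟨e, he, fun f hf => ?_⟩
    rw [hn]
    exact Nat.find_min' hne ⟨f, hf, rfl⟩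
  refine ⟨e, he, fun f hf => ?_⟩
  have hsub : {x | Rch t j f x} ⊆ {x | Rch t j e x} := fun x hx => hf.trans hx
  have heq := Set.eq_of_subset_of_ncard_le hsub (hmin f (he.trans hf)) (Set.toFinite _)
  have : e ∈ {x | Rch t j f x} := by
    rw [heq]
    exact Rch.refl t j e
  exact this

theorem exists_all_rec [Finite σ] (d0 : σ) (n : ℕ) : ∀ k ≤ n, ∃ e, Rch t n d0 e ∧
    ∀ j, n - k ≤ j → j ≤ n → Rec t j e := by
  intro k
  induction k with
  | zero =>
    intro _
    obtain ⟨e, h1, h2⟩ := exists_rec (t := t) n d0
    exact ⟨e, h1, fun j h3 h4 => by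
      obtain rfl : j = n := by omega
      exact h2⟩
  | succ k ih =>
    intro hk
    obtain ⟨e, h1, h2⟩ := ih (by omega)
    obtain ⟨f, h3, h4⟩ := exists_rec (t := t) (n - (k + 1)) e
    refine ⟨f, h1.trans (h3.mono (by omega)), fun j h5 h6 => ?_⟩
    rcases Nat.eq_or_lt_of_le h5 with h7 | h7
    · rw [← h7]; exact h4
    · exact (h2 j (by omega) h6).mono (by omega) h3

/-- A state to which one can return by a word whose greatest letter is any given letter. -/
theorem exists_state [Finite σ] (d0 : σ) : ∃ (W : List (Fin m)) (z : Fin m → List (Fin m)),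
    ∀ j, rd t (rd t d0 W) (z j) = rd t d0 W ∧ j ∈ z j ∧ ∀ x ∈ z j, x ≤ j := by
  obtain ⟨e, ⟨W, _, rfl⟩, h2⟩ := exists_all_rec (t := t) d0 m m le_rfl
  have h3 : ∀ j : Fin m, ∃ z : List (Fin m), rd t (rd t d0 W) z = rd t d0 W ∧ j ∈ z ∧
      ∀ x ∈ z, x ≤ j := by
    intro j
    obtain ⟨y, hy1, hy2⟩ := h2 j (by omega) (by omega) (rd t (rd t d0 W) [j]) ⟨[j], by simp, rfl⟩
    refine ⟨j :: y, hy2, by simp, ?_⟩
    intro x hx
    rcases List.mem_cons.1 hx with rfl | hx
    · exact le_rfl
    · exact hy1 x hx
  choose z hz using h3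
  exact ⟨W, z, hz⟩

end

/-! ### cuts -/

theorem exists_cut {X Y : Type} (M : AGsm X Y) (u : List X) (hu : u ≠ []) :
    ∀ (d : M.State) (α : List Y), α <+: M.output d u →
      ∃ u1 x u2 o1 o2, u = u1 ++ x :: u2 ∧ M.out (M.run d u1) x = o1 ++ o2 ∧
        α = M.output d u1 ++ o1 := by
  induction u with
  | nil => exact absurd rfl hu
  | cons x u ih =>
    intro d α hα
    rw [AGsm.output_cons] at hα
    obtain ⟨γ, hγ⟩ := hα
    rw [List.append_eq_append_iff] at hγ
    rcases hγ with ⟨o, h1, h2⟩ | ⟨o, h1, h2⟩
    · exact ⟨[], x, u, α, o, rfl, h1, rfl⟩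
    · rcases u with _ | ⟨y, u⟩
      · have h3 : o ++ γ = [] := h2.symm
        obtain ⟨rfl, rfl⟩ := List.append_eq_nil_iff.1 h3
        refine ⟨[], x, [], α, [], rfl, ?_, rfl⟩
        show M.out d x = α ++ []
        rw [h1]
        simp
      · obtain ⟨u1, x', u2, o1, o2, h3, h4, h5⟩ := ih (by simp) (M.next d x) o ⟨γ, h2.symm⟩
        refine ⟨x :: u1, x', u2, o1, o2, by rw [h3]; rfl, h4, ?_⟩
        rw [h1, h5, AGsm.output_cons, List.append_assoc]

/-- iterated blocks -/
def pw {X : Type} (k : ℕ) (z : List X) : List X := (List.replicate k z).flatten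

theorem pw_succ {X : Type} (k : ℕ) (z : List X) : pw (k + 1) z = z ++ pw k z := by
  simp [pw, List.replicate_succ]

theorem pw_add {X : Type} (k l : ℕ) (z : List X) : pw (k + l) z = pw k z ++ pw l z := by
  rw [pw, List.replicate_add, List.flatten_append, pw, pw]

theorem run_pw {X Y : Type} (M : AGsm X Y) {d : M.State} {z : List X} (h : M.run d z = d) (k : ℕ) :
    M.run d (pw k z) = d ∧ M.output d (pw k z) = pw k (M.output d z) := by
  induction k with
  | zero => exact ⟨rfl, rfl⟩
  | succ k ih =>
    rw [pw_succ, pw_succ, AGsm.run_append, AGsm.output_append, h]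
    exact ⟨ih.1, by rw [ih.2]⟩

/-- Reading many blocks on the left while a short word is read on the right. -/
theorem pure_block {Y : Type} (A : TH Y) (z : List Y) : ∀ (k : ℕ) (q q' : A.Q) (β : List Y),
    A.D q (pw k z) β q' → β.length < k → ∃ k1 k2 s s' β1 β2, k = k1 + (k2 + 1) ∧ β = β2 ++ β1 ∧
      A.D q (pw k1 z) β1 s ∧ A.D s z [] s' ∧ A.D s' (pw k2 z) β2 q' := by
  intro k
  induction k with
  | zero => intro q q' β _ h; omega
  | succ k ih =>
    intro q q' β h hβ
    rw [pw_succ] at h
    obtain ⟨r, β1, β2, rfl, h1, h2⟩ := h.split_left z (pw k z) rfl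
    rcases β1 with _ | ⟨y, β1⟩
    · exact ⟨0, k, q, r, [], β2, by omega, by simp, .nil q, h1, h2⟩
    · simp only [List.length_append, List.length_cons] at hβ
      obtain ⟨k1, k2, s, s', β3, β4, rfl, rfl, h3, h4, h5⟩ := ih r q' β2 h2 (by omega)
      refine ⟨k1 + 1, k2, s, s', β3 ++ (y :: β1), β4, by omega, by simp, ?_, h4, h5⟩
      rw [pw_succ]
      exact h1.trans h3

/-! ### the main argument -/

section

variable {Y : Type} (A : TH Y) {m : ℕ} (M : AGsm (Xm m) Y)

/-- the word -/
def wd (U : List (Xm m)) (k l p : ℕ) (g : Fin m) : List (Xm m) :=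
  U ++ (List.replicate k .a ++ (List.replicate l .b ++ List.replicate (p + 1) (.c g)))

/-- The part on the right of the first part cannot be read on the right while the first part is read
on the left. -/
theorem no_right (hM : Mm m = M.inv A.lang) : ∃ l0 : ℕ, ∀ (U : List (Xm m)) (p : ℕ) (g : Fin m)
    (l : ℕ), l0 ≤ l → U ≠ [] → (∀ y ∈ U, ∃ i, y = .x i) →
    M.run M.init (wd U l l p g) ∈ M.accept →
    ∀ (α0 α' β' : List Y) (q1 f : A.Q), α0 <+: M.output M.init U →
      A.D A.init α0 (M.output (M.run M.init (U ++ List.replicate l .a))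
        (List.replicate l .b ++ List.replicate (p + 1) (.c g))) q1 →
      A.D q1 α' β' f → A.acc f →
      α0 ++ (α' ++ β') = M.output M.init (U ++ List.replicate l .a) → False := by
  have hQ := A.fin
  have hS := M.finState
  let Ty := Σ s : M.State × Xm m, {o : List Y // o ∈ (M.out s.1 s.2).inits}
  have hTy : Finite Ty := by
    have : ∀ s : M.State × Xm m, Finite {o : List Y // o ∈ (M.out s.1 s.2).inits} :=
      fun s => (List.finite_toSet _).to_subtype
    infer_instance
  obtain ⟨N, hN⟩ : ∃ N, N = Nat.card (A.Q × Ty × M.State) := ⟨_, rfl⟩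
  refine ⟨N, fun U p g l hl hU hUx hacc α0 α' β' q1 f hα0 h1 h2 hf he => ?_⟩
  set dA := M.run M.init (U ++ List.replicate l .a) with hdA
  rw [AGsm.output_append] at h1
  obtain ⟨r0, α00, ζ, rfl, g1, g2⟩ := h1.split_right _ _ rfl
  -- for each number of letters `b` read on the right
  have key : ∀ i : Fin (l + 1), ∃ (r : A.Q) (ζ1 ζ2 : List Y) (u1 : List (Xm m)) (x : Xm m)
      (u2 : List (Xm m)) (o1 o2 : List Y), ζ = ζ1 ++ ζ2 ∧
      A.D r0 ζ1 (M.output (M.run dA (List.replicate (l - i) .b)) (List.replicate i .b)) r ∧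
      A.D r ζ2 (M.output dA (List.replicate (l - i) .b)) q1 ∧
      U = u1 ++ x :: u2 ∧ M.out (M.run M.init u1) x = o1 ++ o2 ∧
        α00 ++ ζ1 = M.output M.init u1 ++ o1 := by
    intro i
    have e1 : List.replicate l (Xm.b : Xm m) = List.replicate (l - i) .b ++ List.replicate i .b := by
      rw [← List.replicate_add]
      congr 1
      omega
    rw [e1, AGsm.output_append] at g2
    obtain ⟨r, ζ1, ζ2, rfl, k1, k2⟩ := g2.split_right _ _ rfl
    have hpre : α00 ++ ζ1 <+: M.output M.init U := by
      refine List.IsPrefix.trans ?_ hα0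
      rw [← List.append_assoc]
      exact List.prefix_append _ _
    obtain ⟨u1, x, u2, o1, o2, k3, k4, k5⟩ := exists_cut M U hU M.init _ hpre
    exact ⟨r, ζ1, ζ2, u1, x, u2, o1, o2, rfl, k1, k2, k3, k4, k5⟩
  choose r ζ1 ζ2 u1 x u2 o1 o2 k0 k1 k2 k3 k4 k5 using key
  -- types
  let ty : Fin (l + 1) → A.Q × Ty × M.State := fun i =>
    (r i, ⟨(M.run M.init (u1 i), x i), ⟨o1 i, by
      rw [List.mem_inits, k4 i]
      exact List.prefix_append _ _⟩⟩, M.run dA (List.replicate (l - i) .b))
  obtain ⟨i, j, hij, hty⟩ : ∃ i j, i ≠ j ∧ ty i = ty j := by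
    by_contra hcon
    push Not at hcon
    have hinj : Function.Injective ty := by
      intro i j h
      by_contra hne
      exact hcon i j hne h
    have := Nat.card_le_card_of_injective ty hinj
    rw [← hN, Nat.card_eq_fintype_card, Fintype.card_fin] at this
    omega
  wlog hlt : i < j generalizing i j
  · exact this j i hij.symm hty.symm (lt_of_le_of_ne (not_lt.mp hlt) hij.symm)
  have hlt' : (i : ℕ) < j := hlt
  have hjl : (j : ℕ) < l + 1 := j.2
  simp only [ty, Prod.mk.injEq] at hty
  obtain ⟨t1, t2, t3⟩ := hty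
  have t4 : M.run M.init (u1 i) = M.run M.init (u1 j) ∧ x i = x j ∧ o1 i = o1 j := by
    have h := congrArg (fun s : Ty => ((s.1.1, s.1.2, s.2.1) : M.State × Xm m × List Y)) t2
    simpa using h
  obtain ⟨t4, t5, t6⟩ := t4
  have t7 : o2 i = o2 j := by
    have h1 := k4 i
    have h2 := k4 j
    rw [t4, t5, h2, t6] at h1
    exact (List.append_cancel_left h1).symm
  -- the new word
  obtain ⟨U', hU'⟩ : ∃ U', U' = u1 i ++ x j :: u2 j := ⟨_, rfl⟩
  have hU'x : ∀ y ∈ U', ∃ i, y = .x i := by
    intro y hy
    rw [hU', List.mem_append] at hy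
    rcases hy with hy | hy
    · exact hUx y (by rw [k3 i]; exact List.mem_append_left _ hy)
    · exact hUx y (by rw [k3 j]; exact List.mem_append_right _ hy)
  have hrun : M.run M.init U' = M.run M.init U := by
    rw [hU', k3 j, AGsm.run_append, AGsm.run_append, t4]
  have hrunA : M.run M.init (U' ++ List.replicate l .a) = dA := by
    rw [AGsm.run_append, hrun, hdA, AGsm.run_append]
  have hout : ∃ ρ, M.output M.init U' = (α00 ++ ζ1 i) ++ ρ ∧
      M.output M.init U = (α00 ++ ζ1 j) ++ ρ := by
    refine ⟨o2 j ++ M.output (M.next (M.run M.init (u1 j)) (x j)) (u2 j), ?_, ?_⟩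
    · rw [hU', AGsm.output_append, AGsm.output_cons, k5 i, t4, k4 j, t6]
      simp only [List.append_assoc]
    · rw [k3 j, AGsm.output_append, AGsm.output_cons, k5 j, k4 j]
      simp only [List.append_assoc]
  obtain ⟨ρ, hρ1, hρ2⟩ := hout
  have hbrun : M.run dA (List.replicate (l - j + i) .b) = M.run dA (List.replicate l .b) := by
    rw [List.replicate_add, AGsm.run_append, ← t3, ← AGsm.run_append, ← List.replicate_add]
    congr 2
    omega
  have hbout : M.output dA (List.replicate (l - j + i) .b) =
      M.output dA (List.replicate (l - j) .b) ++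
        M.output (M.run dA (List.replicate (l - i) .b)) (List.replicate i .b) := by
    rw [List.replicate_add, AGsm.output_append, t3]
  have hmem : wd U' l (l - j + i) p g ∈ Mm m := by
    rw [hM]
    constructor
    · have e0 : M.run M.init (wd U' l (l - j + i) p g) = M.run M.init (wd U l l p g) := by
        rw [wd, wd, ← List.append_assoc, AGsm.run_append, hrunA, AGsm.run_append, hbrun,
          ← List.append_assoc, AGsm.run_append, ← hdA, AGsm.run_append]
      rw [e0]
      exact hacc
    · have d1 := g1.trans ((k1 i).trans (t1 ▸ k2 j))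
      have d2 := d1.trans h2
      refine ⟨_, _, f, ?_, d2, hf⟩
      rw [wd, ← List.append_assoc, AGsm.output_append, hrunA, AGsm.output_append M
        (List.replicate (l - j + i) .b), hbrun, hbout, AGsm.output_append, hrun, hρ1]
      rw [AGsm.output_append, hρ2] at he
      have he' : ζ2 j ++ (α' ++ β') = ρ ++ M.output (M.run M.init U) (List.replicate l .a) := by
        rw [k0 j] at he
        simp only [List.append_assoc, List.append_cancel_left_eq] at he
        exact he
      have he'' := congrArg (fun s => (α00 ++ ζ1 i) ++ s ++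
        (M.output dA (List.replicate (l - j) .b) ++
          (M.output (M.run dA (List.replicate (l - i) .b)) (List.replicate i .b) ++
          M.output (M.run dA (List.replicate l .b)) (List.replicate (p + 1) (.c g))))) he'
      simp only [List.append_assoc] at he'' ⊢
      exact he''.symm
  have := count_ab hU'x hmem
  omega

theorem not_inv (hm : 2 ^ (Nat.card A.Q * Nat.card A.Q) < m) : Mm m ≠ M.inv A.lang := by
  intro hM
  have hQ := A.fin
  have hS := M.finState
  obtain ⟨l, hl⟩ := no_right A M hM
  -- the recurrent state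
  obtain ⟨W0, z, hz⟩ := exists_state (t := fun d i => M.next d (.x i)) M.init
  have hrd : ∀ (u : List (Fin m)) (d : M.State), rd (fun d i => M.next d (.x i)) d u =
      M.run d (u.map .x) := by
    intro u
    induction u with
    | nil => intro d; rfl
    | cons i u ih => intro d; exact ih _
  simp only [hrd] at hz
  set d := M.run M.init (W0.map .x) with hd
  -- equal relations
  obtain ⟨j, j', hjj, hR⟩ : ∃ j j' : Fin m, j < j' ∧ ∀ s s', A.D s (M.output d ((z j).map .x)) [] s' ↔
      A.D s (M.output d ((z j').map .x)) [] s' := by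
    let R : Fin m → Set (A.Q × A.Q) := fun j => {s | A.D s.1 (M.output d ((z j).map .x)) [] s.2}
    have hni : ¬ Function.Injective R := by
      intro hinj
      have := Nat.card_le_card_of_injective R hinj
      rw [Nat.card_eq_fintype_card, Fintype.card_fin] at this
      have hc : Nat.card (Set (A.Q × A.Q)) = 2 ^ (Nat.card A.Q * Nat.card A.Q) := by
        classical
        have := Fintype.ofFinite A.Q
        rw [Nat.card_eq_fintype_card, Fintype.card_set, Fintype.card_prod,
          Nat.card_eq_fintype_card]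
      omega
    simp only [Function.Injective, not_forall] at hni
    obtain ⟨j, j', h1, h2⟩ := hni
    have h3 : ∀ s s', A.D s (M.output d ((z j).map .x)) [] s' ↔
        A.D s (M.output d ((z j').map .x)) [] s' := fun s s' => Set.ext_iff.1 h1 (s, s')
    rcases lt_or_gt_of_ne h2 with h4 | h4
    · exact ⟨j, j', h4, h3⟩
    · exact ⟨j', j, h4, fun s s' => (h3 s s').symm⟩
  -- the word
  set p := W0.length with hp
  set tail := M.output (M.run M.init (W0.map .x)) [] with htail
  have hzj := (hz j).1
  have hzj' := (hz j').1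
  set Z := M.output d ((z j).map .x) with hZ
  set Z' := M.output d ((z j').map .x) with hZ'
  -- the output of the part on the right
  set dA := M.run d (List.replicate l .a) with hdA
  set OB := M.output dA (List.replicate l .b ++ List.replicate (p + 1) (.c j')) with hOB
  obtain ⟨k, hk⟩ : ∃ k, k = OB.length + 1 := ⟨_, rfl⟩
  have hmap : ∀ n (y : List (Fin m)), (pw n y).map (Xm.x : Fin m → Xm m) = pw n (y.map .x) := by
    intro n y
    induction n with
    | zero => rfl
    | succ n ih => rw [pw_succ, pw_succ, List.map_append, ih]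
  have hmem_pw : ∀ n (y : List (Fin m)) (i : Fin m), i ∈ pw n y → i ∈ y := by
    intro n y i
    induction n with
    | zero => intro h; simp [pw] at h
    | succ n ih =>
      intro h
      rw [pw_succ, List.mem_append] at h
      rcases h with h | h
      · exact h
      · exact ih h
  set U : List (Xm m) := (W0 ++ pw k (z j)).map .x with hU
  have hUne : U ≠ [] := by
    rw [hU, hk, pw_succ]
    intro h
    rw [List.map_eq_nil_iff] at h
    obtain ⟨_, h⟩ := List.append_eq_nil_iff.1 h
    obtain ⟨h, _⟩ := List.append_eq_nil_iff.1 h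
    have := (hz j).2.1
    rw [h] at this
    simp at this
  have hUx : ∀ y ∈ U, ∃ i, y = .x i := by
    intro y hy
    obtain ⟨i, _, rfl⟩ := List.mem_map.1 hy
    exact ⟨i, rfl⟩
  have hUrun : M.run M.init U = d := by
    rw [hU, List.map_append, hmap, AGsm.run_append]
    exact (run_pw M hzj k).1
  have hUout : M.output M.init U = M.output M.init (W0.map .x) ++ pw k Z := by
    rw [hU, List.map_append, hmap, AGsm.output_append]
    rw [(run_pw M hzj k).2]
  have hmemM : wd U l l p j' ∈ Mm m := by
    refine ⟨j', W0, pw k (z j), l, ?_, ?_⟩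
    · intro h
      have h1 := (hz j).2.2 _ (hmem_pw _ _ _ h)
      exact absurd (lt_of_lt_of_le hjj h1) (lt_irrefl _)
    · rw [wd, hU, List.map_append, List.append_assoc]
  rw [hM] at hmemM
  obtain ⟨hacc, α, β, f, hαβ, hD, hf⟩ := hmemM
  have hUA : M.run M.init (U ++ List.replicate l .a) = dA := by
    rw [AGsm.run_append, hUrun]
  have hwout : M.output M.init (wd U l l p j') = M.output M.init U ++
      (M.output d (List.replicate l .a) ++ OB) := by
    rw [wd, AGsm.output_append, AGsm.output_append, hUrun]
  rw [hwout] at hαβ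
  -- the first part is read on the left while a part of `OB` is read on the right
  have key : ∃ q1 β1 α' β', A.D A.init (M.output M.init U) β1 q1 ∧ A.D q1 α' β' f ∧
      β1.length ≤ OB.length ∧
      M.output d (List.replicate l .a) ++ OB = α' ++ (β' ++ β1) := by
    -- read `OB` on the right if possible
    have fin : ∀ (q0 : A.Q) (α0 β0 α' β' : List Y), A.D A.init (M.output M.init U ++ α0) β0 q0 →
        A.D q0 α' β' f → β0.length ≤ OB.length →
        M.output d (List.replicate l .a) ++ OB = α0 ++ (α' ++ (β' ++ β0)) →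
        ∃ q1 β1 α' β', A.D A.init (M.output M.init U) β1 q1 ∧ A.D q1 α' β' f ∧
          β1.length ≤ OB.length ∧
          M.output d (List.replicate l .a) ++ OB = α' ++ (β' ++ β1) := by
      intro q0 α0 β0 α' β' h1 h2 h3 h4
      obtain ⟨q1, β1, β2, rfl, h5, h6⟩ := h1.split_left _ _ rfl
      rw [List.length_append] at h3
      exact ⟨q1, β1, α0 ++ α', β' ++ β2, h5, h6.trans h2, by omega, by
        rw [h4]; simp only [List.append_assoc]⟩
    by_cases hlen : β.length ≤ OB.length
    · -- `β` is a suffix of `OB`
      have h1 : M.output M.init U <+: α := by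
        refine List.prefix_of_prefix_length_le (l₃ := α ++ β) ?_ (List.prefix_append _ _) ?_
        · rw [← hαβ]; exact List.prefix_append _ _
        · have := congrArg List.length hαβ
          simp only [List.length_append] at this
          omega
      obtain ⟨α0, rfl⟩ := h1
      refine fin f α0 β [] [] hD (.nil f) hlen ?_
      rw [List.append_assoc, List.append_cancel_left_eq] at hαβ
      rw [hαβ]
      simp
    · have h1 : OB <:+ β := by
        refine List.suffix_of_suffix_length_le (l₃ := α ++ β) ?_ (List.suffix_append _ _) (by omega)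
        rw [← hαβ, ← List.append_assoc]
        exact List.suffix_append _ _
      obtain ⟨β', rfl⟩ := h1
      obtain ⟨q0, α0, α', rfl, h2, h3⟩ := hD.split_right _ _ rfl
      have h4 : M.output M.init U ++ M.output d (List.replicate l .a) = α0 ++ (α' ++ β') := by
        rw [← List.append_assoc, ← List.append_assoc] at hαβ
        have := List.append_cancel_right hαβ
        rw [this, List.append_assoc]
      by_cases hlen2 : α0.length ≤ (M.output M.init U).length
      · exfalso
        have h5 : α0 <+: M.output M.init U := by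
          refine List.prefix_of_prefix_length_le (l₃ := α0 ++ (α' ++ β')) (List.prefix_append _ _)
            ?_ hlen2
          rw [← h4]; exact List.prefix_append _ _
        refine hl U p j' l le_rfl hUne hUx hacc α0 α' β' q0 f h5 ?_ h3 hf ?_
        · rw [hUA]; exact h2
        · rw [AGsm.output_append, hUrun, h4]
      · have h5 : M.output M.init U <+: α0 := by
          refine List.prefix_of_prefix_length_le (l₃ := α0 ++ (α' ++ β')) ?_
            (List.prefix_append _ _) (by omega)
          rw [← h4]; exact List.prefix_append _ _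
        obtain ⟨α1, rfl⟩ := h5
        refine fin q0 α1 OB α' β' h2 h3 le_rfl ?_
        rw [List.append_assoc, List.append_cancel_left_eq] at h4
        rw [h4]
        simp only [List.append_assoc]
  obtain ⟨q1, β1, α', β', h1, h2, h3, h4⟩ := key
  rw [hUout] at h1
  obtain ⟨q2, β2, β3, rfl, h5, h6⟩ := h1.split_left _ _ rfl
  rw [List.length_append] at h3
  obtain ⟨k1, k2, s, s', β4, β5, hk12, rfl, g1, g2, g3⟩ := pure_block A Z k q2 q1 β3 h6 (by omega)
  have g2' := (hR s s').1 g2
  -- the new word
  set V : List (Fin m) := W0 ++ (pw k1 (z j) ++ (z j' ++ pw k2 (z j))) with hV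
  have hVrun : M.run M.init (V.map .x) = d := by
    rw [hV, List.map_append, List.map_append, List.map_append, hmap, hmap, AGsm.run_append,
      AGsm.run_append, AGsm.run_append, (run_pw M hzj k1).1, hzj', (run_pw M hzj k2).1]
  have hVout : M.output M.init (V.map .x) = M.output M.init (W0.map .x) ++
      (pw k1 Z ++ (Z' ++ pw k2 Z)) := by
    rw [hV, List.map_append, List.map_append, List.map_append, hmap, hmap, AGsm.output_append,
      AGsm.output_append, AGsm.output_append, ← hd, (run_pw M hzj k1).2, (run_pw M hzj k1).1,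
      hzj', (run_pw M hzj k2).2]
  have hnew : wd (V.map .x) l l p j' ∈ Mm m := by
    rw [hM]
    constructor
    · have e0 : M.run M.init (wd (V.map .x) l l p j') = M.run M.init (wd U l l p j') := by
        rw [wd, wd, AGsm.run_append, hVrun, AGsm.run_append M U, hUrun]
      rw [e0]
      exact hacc
    · have d1 := h5.trans (g1.trans (g2'.trans g3))
      have d2 := d1.trans h2
      refine ⟨_, _, f, ?_, d2, hf⟩
      have e1 : M.output M.init (wd (V.map .x) l l p j') = M.output M.init (V.map .x) ++
          (M.output d (List.replicate l .a) ++ OB) := by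
        rw [wd, AGsm.output_append, AGsm.output_append, hVrun]
      rw [e1, hVout, h4]
      simp only [List.append_assoc, List.append_nil]
  have h7 := parse hnew
  apply h7
  rw [hV, List.drop_left' hp.symm]
  simp [(hz j').2.1]

end

theorem lin_not_G {Y : Type} [Finite Y] (L : Language Y) (hL : Lin Y L) :
    ∃ (X : Type) (_ : Finite X) (N : Language X), Lin X N ∧ ¬ G L X N := by
  obtain ⟨A, hA⟩ := lin_th L hL
  obtain ⟨m, hm⟩ : ∃ m, m = 2 ^ (Nat.card A.Q * Nat.card A.Q) + 1 := ⟨_, rfl⟩
  refine ⟨Xm m, inferInstance, Mm m, Mm_lin m, fun h => ?_⟩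
  obtain ⟨M, hM⟩ := G_inv h
  rw [← hA] at hM
  exact not_inv A M (by omega) hM

theorem lin_not_gprincipal : ¬ GPrincipal Lin := by
  rintro ⟨Y, hY, L, hL, h⟩
  obtain ⟨X, hX, N, h1, h2⟩ := lin_not_G L hL
  exact h2 ((h X N).1 h1)

end Pool.Agent.Y552.Gp
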