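import Pool.Agent.Y552.Gp.Defs
import Pool.Agent.Y552.Qr.Lin

set_option autoImplicit false

/-!
Automata reading a word from both ends.
-/

namespace Pool.Agent.Y552.Gp

open Pool.Agent.Y552.Qr (Ru cmp out out_cons lin_word)

/-- Automata reading a word from both ends. -/
structure TH (Y : Type) where
  Q : Type
  fin : Finite Q
  lt : Q → Y → Q → Prop
  rt : Q → Y → Q → Prop
  st : Q → Q → Prop
  init : Q
  acc : Q → Prop

variable {Y : Type}

/-- Computations: the first word is read on the left, the second one on the right. -/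
inductive TH.D (A : TH Y) : A.Q → List Y → List Y → A.Q → Prop
  | nil (q : A.Q) : A.D q [] [] q
  | left {q q' q'' : A.Q} {y : Y} {α β : List Y} : A.lt q y q' → A.D q' α β q'' →
      A.D q (y :: α) β q''
  | right {q q' q'' : A.Q} {y : Y} {α β : List Y} : A.rt q y q' → A.D q' α β q'' →
      A.D q α (β ++ [y]) q''
  | sil {q q' q'' : A.Q} {α β : List Y} : A.st q q' → A.D q' α β q'' → A.D q α β q''

/-- The language. -/
def TH.lang (A : TH Y) : Language Y :=
  {w | ∃ α β f, w = α ++ β ∧ A.D A.init α β f ∧ A.acc f}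

theorem TH.D.trans {A : TH Y} {q q' q'' : A.Q} {α β α' β' : List Y} (h : A.D q α β q')
    (h' : A.D q' α' β' q'') : A.D q (α ++ α') (β' ++ β) q'' := by
  induction h with
  | nil q => simpa using h'
  | left hs _ ih => exact TH.D.left hs (ih h')
  | right hs _ ih =>
    rw [← List.append_assoc]
    exact TH.D.right hs (ih h')
  | sil hs _ ih => exact TH.D.sil hs (ih h')

theorem TH.D.split_left {A : TH Y} {q q'' : A.Q} {α β : List Y} (h : A.D q α β q'') :
    ∀ α1 α2, α = α1 ++ α2 → ∃ q' β1 β2, β = β2 ++ β1 ∧ A.D q α1 β1 q' ∧ A.D q' α2 β2 q'' := by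
  induction h with
  | nil q =>
    intro α1 α2 h
    obtain ⟨rfl, rfl⟩ := List.append_eq_nil_iff.1 h.symm
    exact ⟨q, [], [], rfl, .nil q, .nil q⟩
  | @left q q' q'' y α β hs hr ih =>
    intro α1 α2 h
    cases α1 with
    | nil =>
      simp only [List.nil_append] at h
      subst h
      exact ⟨q, [], β, by simp, .nil q, .left hs hr⟩
    | cons a α1 =>
      rw [List.cons_append, List.cons.injEq] at h
      obtain ⟨rfl, rfl⟩ := h
      obtain ⟨r, β1, β2, rfl, h1, h2⟩ := ih α1 α2 rfl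
      exact ⟨r, β1, β2, rfl, .left hs h1, h2⟩
  | @right q q' q'' y α β hs hr ih =>
    intro α1 α2 h
    obtain ⟨r, β1, β2, rfl, h1, h2⟩ := ih α1 α2 h
    exact ⟨r, β1 ++ [y], β2, by simp, .right hs h1, h2⟩
  | @sil q q' q'' α β hs hr ih =>
    intro α1 α2 h
    obtain ⟨r, β1, β2, rfl, h1, h2⟩ := ih α1 α2 h
    exact ⟨r, β1, β2, rfl, .sil hs h1, h2⟩

theorem TH.D.split_right {A : TH Y} {q q'' : A.Q} {α β : List Y} (h : A.D q α β q'') :
    ∀ β2 β1, β = β2 ++ β1 → ∃ q' α1 α2, α = α1 ++ α2 ∧ A.D q α1 β1 q' ∧ A.D q' α2 β2 q'' := by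
  induction h with
  | nil q =>
    intro β2 β1 h
    obtain ⟨rfl, rfl⟩ := List.append_eq_nil_iff.1 h.symm
    exact ⟨q, [], [], rfl, .nil q, .nil q⟩
  | @left q q' q'' y α β hs hr ih =>
    intro β2 β1 h
    obtain ⟨r, α1, α2, rfl, h1, h2⟩ := ih β2 β1 h
    exact ⟨r, y :: α1, α2, by simp, .left hs h1, h2⟩
  | @right q q' q'' y α β hs hr ih =>
    intro β2 β1 h
    rcases List.eq_nil_or_concat β1 with rfl | ⟨β1, y', rfl⟩
    · rw [List.append_nil] at h
      subst h
      exact ⟨q, [], α, by simp, .nil q, .right hs hr⟩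
    · rw [List.concat_eq_append, ← List.append_assoc] at h
      obtain ⟨rfl, h⟩ := List.append_inj' h rfl
      obtain rfl : y = y' := by simpa using h
      obtain ⟨r, α1, α2, rfl, h1, h2⟩ := ih β2 β1 rfl
      refine ⟨r, α1, α2, rfl, ?_, h2⟩
      rw [List.concat_eq_append]
      exact .right hs h1
  | @sil q q' q'' α β hs hr ih =>
    intro β2 β1 h
    obtain ⟨r, α1, α2, rfl, h1, h2⟩ := ih β2 β1 h
    exact ⟨r, α1, α2, rfl, .sil hs h1, h2⟩

/-! ### linear grammars -/

section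

variable {g : ContextFreeGrammar Y}
variable (u v : Ru g → List Y) (a : Ru g → Option g.NT)

/-- States: a rule with the parts of its right-hand side which are still to be read. -/
abbrev St := Option (Σ r : Ru g, {x : List Y // x ∈ (u r).tails} × {y : List Y // y ∈ (v r).inits})

/-- the start of a rule -/
def stt (r : Ru g) : St u v :=
  some ⟨r, ⟨u r, by simp⟩, ⟨v r, by simp⟩⟩

/-- The automaton of a linear grammar. -/
def thG : TH Y where
  Q := St u v
  fin := by
    have h1 : ∀ r : Ru g, Finite {x : List Y // x ∈ (u r).tails} := fun r =>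
      (List.finite_toSet _).to_subtype
    have h2 : ∀ r : Ru g, Finite {x : List Y // x ∈ (v r).inits} := fun r =>
      (List.finite_toSet _).to_subtype
    infer_instance
  lt := fun s c t => ∃ r x x' y, s = some ⟨r, x, y⟩ ∧ t = some ⟨r, x', y⟩ ∧ x.1 = c :: x'.1
  rt := fun s c t => ∃ r x y y', s = some ⟨r, x, y⟩ ∧ t = some ⟨r, x, y'⟩ ∧ y.1 = y'.1 ++ [c]
  st := fun s t => (∃ r : Ru g, s = none ∧ t = stt u v r ∧ g.initial = r.1.input) ∨
    ∃ (r r' : Ru g) (x : {x : List Y // x ∈ (u r).tails}) (y : {y : List Y // y ∈ (v r).inits}),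
      s = some ⟨r, x, y⟩ ∧ x.1 = [] ∧ y.1 = [] ∧ t = stt u v r' ∧ a r = some r'.1.input
  init := none
  acc := fun s => ∃ (r : Ru g) (x : {x : List Y // x ∈ (u r).tails})
    (y : {y : List Y // y ∈ (v r).inits}), s = some ⟨r, x, y⟩ ∧ x.1 = [] ∧ y.1 = [] ∧ a r = none

/-- what is to be read from a state -/
def sem (s : St u v) (w : List Y) : Prop :=
  match s with
  | none => ∃ l, cmp a (some g.initial) l ∧ w = out u v l
  | some ⟨r, x, y⟩ => ∃ l, cmp a (a r) l ∧ w = x.1 ++ (out u v l ++ y.1)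

theorem sem_of {s f : (thG u v a).Q} {α β : List Y} (h : (thG u v a).D s α β f) :
    (thG u v a).acc f → sem u v a s (α ++ β) := by
  induction h with
  | nil s =>
    rintro ⟨r, x, y, rfl, hx, hy, ha⟩
    exact ⟨[], ha, by simp [out, hx, hy]⟩
  | @left s s' s'' c α β hs hr ih =>
    intro hf
    have h1 := ih hf
    obtain ⟨r, x, x', y, rfl, rfl, hx⟩ := hs
    obtain ⟨l, h2, h3⟩ := h1
    exact ⟨l, h2, by rw [hx, List.cons_append, h3]; rfl⟩
  | @right s s' s'' c α β hs hr ih =>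
    intro hf
    have h1 := ih hf
    obtain ⟨r, x, y, y', rfl, rfl, hy⟩ := hs
    obtain ⟨l, h2, h3⟩ := h1
    refine ⟨l, h2, ?_⟩
    rw [hy, ← List.append_assoc, h3]
    simp
  | @sil s s' s'' α β hs hr ih =>
    intro hf
    have h1 := ih hf
    rcases hs with ⟨r, rfl, rfl, h2⟩ | ⟨r, r', x, y, rfl, hx, hy, rfl, h2⟩
    · obtain ⟨l, h3, h4⟩ := h1
      refine ⟨r :: l, ⟨by rw [h2], h3⟩, ?_⟩
      rw [out_cons]
      exact h4
    · obtain ⟨l, h3, h4⟩ := h1
      refine ⟨r' :: l, ⟨h2, h3⟩, ?_⟩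
      rw [out_cons, hx, hy]
      simpa using h4

theorem read_left (r : Ru g) (y : {y : List Y // y ∈ (v r).inits}) : ∀ (x : List Y)
    (hx : x ∈ (u r).tails), (thG u v a).D (some ⟨r, ⟨x, hx⟩, y⟩) x []
      (some ⟨r, ⟨[], by simp⟩, y⟩) := by
  intro x
  induction x with
  | nil => intro hx; exact .nil _
  | cons c x ih =>
    intro hx
    have hx' : x ∈ (u r).tails := by
      rw [List.mem_tails] at hx ⊢
      exact (List.suffix_cons c x).trans hx
    exact TH.D.left (A := thG u v a) (q := some ⟨r, ⟨c :: x, hx⟩, y⟩)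
      (q' := some ⟨r, ⟨x, hx'⟩, y⟩) ⟨r, _, _, _, rfl, rfl, rfl⟩ (ih hx')

theorem read_right (r : Ru g) (x : {x : List Y // x ∈ (u r).tails}) : ∀ (y : List Y)
    (hy : y ∈ (v r).inits), (thG u v a).D (some ⟨r, x, ⟨y, hy⟩⟩) [] y
      (some ⟨r, x, ⟨[], by simp⟩⟩) := by
  intro y
  induction y using List.reverseRecOn with
  | nil => intro hy; exact .nil _
  | append_singleton y c ih =>
    intro hy
    have hy' : y ∈ (v r).inits := by
      rw [List.mem_inits] at hy ⊢
      exact (List.prefix_append y [c]).trans hy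
    exact TH.D.right (A := thG u v a) (q := some ⟨r, x, ⟨y ++ [c], hy⟩⟩)
      (q' := some ⟨r, x, ⟨y, hy'⟩⟩) ⟨r, _, _, _, rfl, rfl, rfl⟩ (ih hy')

theorem read_rule (r : Ru g) : (thG u v a).D (stt u v r) (u r) (v r)
    (some ⟨r,⟨[], by simp⟩, ⟨[], by simp⟩⟩) := by
  have h := (read_left u v a r ⟨v r, by simp⟩ (u r) (by simp)).trans
    (read_right u v a r ⟨[], by simp⟩ (v r) (by simp))
  rw [List.append_nil, List.append_nil] at h
  exact h

theorem path_of (l : List (Ru g)) : ∀ r : Ru g, cmp a (a r) l → ∃ f α β, (thG u v a).acc f ∧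
    out u v l = α ++ β ∧ (thG u v a).D (some ⟨r, ⟨[], by simp⟩, ⟨[], by simp⟩⟩) α β f := by
  induction l with
  | nil =>
    intro r h
    exact ⟨_, [], [], ⟨r, _, _, rfl, rfl, rfl, h⟩, by simp [out], .nil _⟩
  | cons r' l ih =>
    intro r h
    obtain ⟨f, α, β, hf, h1, h2⟩ := ih r' h.2
    refine ⟨f, u r' ++ α, β ++ v r', hf, ?_, ?_⟩
    · rw [out_cons, h1]
      simp
    · exact TH.D.sil (A := thG u v a) (q' := stt u v r')
        (Or.inr ⟨r, r', _, _, rfl, rfl, rfl, rfl, h.1⟩) ((read_rule u v a r').trans h2)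

theorem thG_lang (w : List Y) : w ∈ (thG u v a).lang ↔
    ∃ l, cmp a (some g.initial) l ∧ w = out u v l := by
  constructor
  · rintro ⟨α, β, f, rfl, h1, h2⟩
    exact sem_of u v a h1 h2
  · rintro ⟨l, hl, rfl⟩
    cases l with
    | nil =>
      have hl : some g.initial = none := hl
      simp at hl
    | cons r l =>
      obtain ⟨f, α, β, hf, h1, h2⟩ := path_of u v a l r hl.2
      refine ⟨u r ++ α, β ++ v r, f, ?_, ?_, hf⟩
      · rw [out_cons, h1]
        simp
      · exact TH.D.sil (A := thG u v a) (q' := stt u v r)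
          (Or.inl ⟨r, rfl, rfl, Option.some.inj hl.1⟩) ((read_rule u v a r).trans h2)

end

theorem lin_th [Finite Y] (L : Language Y) (hL : Lin Y L) : ∃ A : TH Y, A.lang = L := by
  obtain ⟨g, rfl, hg⟩ := hL
  have h1 : ∀ r : Ru g, ∃ (u v : List Y) (a : Option g.NT), r.1.output =
      u.map Symbol.terminal ++ (a.toList.map Symbol.nonterminal ++ v.map Symbol.terminal) := by
    intro r
    rcases hg r.1 r.2 with ⟨u, hu⟩ | ⟨u, v, A, hu⟩
    · exact ⟨u, [], none, by simp [hu]⟩
    · exact ⟨u, v, some A, by simp [hu]⟩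
  choose u v a hr using h1
  refine ⟨thG u v a, ?_⟩
  ext w
  rw [thG_lang, ContextFreeGrammar.mem_language_iff]
  exact (lin_word u v a hr w g.initial).symm

end Pool.Agent.Y552.Gp
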